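import Pool.Agent.H.MP_ac3292_al.C
import Pool.Agent.H.MP_0ee5c7_al.A

set_option autoImplicit false

namespace Pool.Agent.H.MP_b1d060_al
open Pool.Agent.H.MP_ac3292_al
open Pool.Agent.H.MP_0ee5c7_al (bit bit_inj div_pred eq_of)

def gr (m b : ℕ) : ZMod 2 := bit m b + bit m (b + 1)

def v (r : ℕ) : ℕ := padicValNat 2 r

lemma v_dvd {r u : ℕ} (h : r ≠ 0) : 2 ^ u ∣ r ↔ u ≤ v r := padicValNat_dvd_iff_le h

lemma bits {r : ℕ} (h : r ≠ 0) (b : ℕ) :
    (b < v r → bit r b = 0 ∧ bit (r - 1) b = 1) ∧ (b = v r → bit r b = 1 ∧ bit (r - 1) b = 0) ∧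
      (v r < b → bit (r - 1) b = bit r b) := by
  obtain ⟨s, hs⟩ := (v_dvd h).2 le_rfl
  have h1 : ¬ 2 ^ (v r + 1) ∣ r := by rw [v_dvd h]; omega
  generalize v r = u at *
  obtain ⟨s, rfl⟩ : Odd s := Nat.not_even_iff_odd.1 fun ⟨t, ht⟩ =>
    h1 ⟨t, by rw [hs, ht]; ring⟩
  have p := Nat.two_pow_pos u
  have e1 : r - 1 = 2 ^ u * (2 * s) + (2 ^ u - 1) := by
    rw [hs, mul_add]; omega
  have e2 : r = 2 ^ u * (2 * s + 1) + 0 := hs
  unfold bit
  rw [e1, Nat.testBit_two_pow_mul_add _ (by omega)]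
  clear e1 h h1 hs
  subst e2
  rw [Nat.testBit_two_pow_mul_add _ p]
  refine ⟨fun c => by simp [c], fun c => by simp [c], fun c => ?_⟩
  obtain ⟨k, rfl⟩ := Nat.exists_eq_add_of_lt c
  simp only [c.not_gt, if_false, show u + k + 1 - u = k + 1 by omega, Nat.testBit_succ,
    show (2 * s + 1) / 2 = 2 * s / 2 by omega]

lemma gr_low {r m b : ℕ} (h : r ≠ 0) (hm : r = m + 1 ∨ r = m) (c : b + 1 < v r) : gr m b = 0 := by
  have c1 := (bits h b).1 (by omega)
  have c2 := (bits h (b + 1)).1 c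
  rcases hm with rfl | rfl
  · rw [Nat.add_sub_cancel] at c1 c2
    rw [gr, c1.2, c2.2]; rfl
  · rw [gr, c1.1, c2.1]; rfl

lemma gr_ne {m b : ℕ} (c : b ≠ v (m + 1)) : gr m b = gr (m + 1) b := by
  have c1 := bits m.succ_ne_zero b
  have c2 := bits m.succ_ne_zero (b + 1)
  simp only [Nat.succ_eq_add_one, Nat.add_sub_cancel] at c1 c2
  unfold gr
  rcases lt_or_gt_of_ne c with c | c
  · rw [(c1.1 c).1, (c1.1 c).2]
    rcases (Nat.succ_le_of_lt c).eq_or_lt with d | d
    · rw [(c2.2.1 d).1, (c2.2.1 d).2]; rfl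
    · rw [(c2.1 d).1, (c2.1 d).2]; rfl
  · rw [c1.2.2 c, c2.2.2 (by omega)]

lemma gr_v (m : ℕ) : gr m (v (m + 1)) ≠ gr (m + 1) (v (m + 1)) := by
  have c1 := (bits m.succ_ne_zero _).2.1 rfl
  have c2 := (bits m.succ_ne_zero (v (m + 1) + 1)).2.2 (Nat.lt_succ_self _)
  simp only [Nat.succ_eq_add_one, Nat.add_sub_cancel] at c1 c2
  rw [gr, gr, c1.1, c1.2, c2]
  simp

lemma bit_big {m b : ℕ} (h : m ≤ b) : bit m b = 0 := by
  rw [bit, Nat.testBit_lt_two_pow (Nat.lt_two_pow_self.trans_le (Nat.pow_le_pow_right two_pos h))]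
  rfl

lemma gr_big {m b : ℕ} (h : m ≤ b) : gr m b = 0 := by
  rw [gr, bit_big h, bit_big (by omega), add_zero]

lemma gr_div {m m' u : ℕ} (h : ∀ b, u ≤ b → gr m b = gr m' b) : m / 2 ^ u = m' / 2 ^ u := by
  have z : ∀ x y x' y' : ZMod 2, x + y = x' + y' → y = y' → x = x' := by decide
  have key : ∀ j b, u ≤ b → bit m (b + j) = bit m' (b + j) → bit m b = bit m' b := fun j => by
    induction j with
    | zero => exact fun _ _ c => c
    | succ j ih => exact fun b c d => ih b c (z _ _ _ _ (h _ (by omega)) d)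
  refine Nat.eq_of_testBit_eq fun b => ?_
  rw [Nat.testBit_div_two_pow, Nat.testBit_div_two_pow]
  exact bit_inj (key (m + m') _ (by omega) (by rw [bit_big (by omega), bit_big (by omega)]))

lemma gr_surj (K : ℕ) (c : ℕ → ZMod 2) (h : ∀ b, K ≤ b → c b = 0) : ∃ m, ∀ b, gr m b = c b := by
  let d : ℕ → ZMod 2 := fun b => ∑ j ∈ Finset.Ico b K, c j
  have z : ∀ x : ZMod 2, (if decide (x = 1) = true then 1 else 0) = x := by decide
  have key : ∀ b, bit (Nat.ofBits fun b : Fin K => decide (d b = 1)) b = d b := fun b => by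
    rw [bit, Nat.testBit_ofBits]
    by_cases k : b < K
    · rw [dif_pos k, z]
    · simp [d, k, Finset.Ico_eq_empty k]
  refine ⟨Nat.ofBits fun b : Fin K => decide (d b = 1), fun b => ?_⟩
  rw [gr, key, key]
  by_cases k : b < K
  · simp only [d]
    rw [Finset.sum_eq_sum_Ico_succ_bot k, add_assoc, CharTwo.add_self_eq_zero, add_zero]
  · simp [d, Finset.Ico_eq_empty k, Finset.Ico_eq_empty (show ¬ b + 1 < K by omega),
      h b (by omega)]

lemma col {G : Type} [Group G] (x : ℕ → G) (hx : Function.Injective x) {F : Set G}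
    (hF : F.Finite) : ∃ (Δ : ℕ) (κ : ℕ → ℕ), (∀ r, κ r < Δ) ∧
      ∀ r r', (x r)⁻¹ * x r' ∈ F → κ r = κ r' → r = r' := by
  classical
  let E := (hF.union hF.inv).toFinset
  let κ : ℕ → ℕ := fun r => Nat.strongRec (motive := fun _ => ℕ)
    (fun r f => sInf {c | ∀ r' (h : r' < r), (x r)⁻¹ * x r' ∈ E → f r' h ≠ c}) r
  have k1 : ∀ r, κ r = sInf {c | ∀ r' < r, (x r)⁻¹ * x r' ∈ E → κ r' ≠ c} := fun r => by
    simp only [κ]; rw [Nat.strongRec_eq]
  have k2 : ∀ r, ∃ c ≤ E.card, ∀ r' < r, (x r)⁻¹ * x r' ∈ E → κ r' ≠ c := fun r => by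
    let A := (Finset.range r).filter fun r' => (x r)⁻¹ * x r' ∈ E
    have a1 : A.card ≤ E.card := Finset.card_le_card_of_injOn (fun r' => (x r)⁻¹ * x r')
      (fun r' c => (Finset.mem_filter.1 c).2) fun a _ b _ e => hx (by simpa using e)
    obtain ⟨c, c1, c2⟩ := Finset.exists_mem_notMem_of_card_lt_card
      (s := A.image κ) (t := Finset.range (E.card + 1))
      (by have := Finset.card_image_le (s := A) (f := κ); simp; omega)
    exact ⟨c, by simpa [Nat.lt_succ_iff] using c1, fun r' d e k =>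
      c2 (Finset.mem_image.2 ⟨r', by simp [A, d, e], k⟩)⟩
  have k3 : ∀ r r', r' < r → (x r)⁻¹ * x r' ∈ E → κ r' ≠ κ r := fun r => by
    obtain ⟨c, -, d⟩ := k2 r
    rw [k1 r]
    exact Nat.sInf_mem (s := {c | ∀ r' < r, (x r)⁻¹ * x r' ∈ E → κ r' ≠ c}) ⟨c, d⟩
  refine ⟨E.card + 1, κ, fun r => ?_, fun r r' c d => ?_⟩
  · obtain ⟨c, d, e⟩ := k2 r
    rw [k1 r]
    exact Nat.lt_succ_of_le ((Nat.sInf_le (by exact e)).trans d)
  · rcases lt_trichotomy r r' with e | e | e
    · exact absurd d (k3 r' r e (by simp [E, c]))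
    · exact e
    · exact absurd d.symm (k3 r r' e (by simp [E, c]))

lemma enum {T : Type} [Group T] [Infinite T] (N : Nm T) :
    ∃ q : ℕ ≃ T, ∀ b b', N.ν (q b) < N.ν (q b') → b < b' := by
  have : Countable T := Set.countable_univ_iff.1 ((Set.countable_iUnion fun k =>
    (N.fin k).countable).mono fun g _ => Set.mem_iUnion.2 ⟨N.ν g, (le_rfl : N.ν g ≤ _)⟩)
  obtain ⟨c, hc⟩ := exists_injective_nat T
  choose M hM using fun k => bdd (N.fin k) c
  let key : T → ℕ := fun p => ∑ j ∈ Finset.range (N.ν p), (M j + 1) + c p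
  have k1 : ∀ p p', N.ν p < N.ν p' → key p < key p' := fun p p' h => by
    have := Finset.sum_le_sum_of_subset (f := fun j => M j + 1) (Finset.range_mono (Nat.succ_le_of_lt h))
    rw [Finset.sum_range_succ] at this
    have := hM (N.ν p) p (le_rfl : N.ν p ≤ _)
    simp only [key]
    omega
  have k2 : Function.Injective key := fun p p' e => by
    rcases lt_trichotomy (N.ν p) (N.ν p') with h | h | h
    · exact absurd e (k1 _ _ h).ne
    · simp only [key, h] at e
      exact hc (by omega)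
    · exact absurd e (k1 _ _ h).ne'
  have := (Set.infinite_range_of_injective k2).to_subtype
  classical
  let e := Nat.Subtype.orderIsoOfNat (Set.range key)
  refine ⟨e.toEquiv.trans (Equiv.ofInjective key k2).symm, fun b b' h => e.lt_iff_lt.1 ?_⟩
  have := k1 _ _ h
  simp only [Equiv.trans_apply, Equiv.apply_ofInjective_symm] at this
  exact this

section
variable (w : ℕ → ℕ)

def B : ℕ → ℕ
  | 0 => 0
  | m + 1 => B m + (w (m + 1) + 1)

def sq : ℕ → ℕ × ℕ
  | 0 => (0, 0)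
  | n + 1 => if (sq n).2 < w ((sq n).1 + 1) then ((sq n).1, (sq n).2 + 1) else ((sq n).1 + 1, 0)

lemma sq_inv (n : ℕ) : n = B w (sq w n).1 + (sq w n).2 ∧ (sq w n).2 ≤ w ((sq w n).1 + 1) := by
  induction n with
  | zero => simp [sq, B]
  | succ n ih =>
    rw [sq]
    split_ifs with c
    · exact ⟨by simp; omega, c⟩
    · exact ⟨by simp [B]; omega, by simp⟩

lemma sq_B (m j : ℕ) (h : j ≤ w (m + 1)) : sq w (B w m + j) = (m, j) := by
  induction m generalizing j with
  | zero =>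
    induction j with
    | zero => rfl
    | succ j ih => rw [← add_assoc, sq, ih (by omega), if_pos (by exact h)]
  | succ m ih =>
    induction j with
    | zero => rw [add_zero, B, ← add_assoc, sq, ih _ le_rfl, if_neg (by simp)]
    | succ j ih => rw [← add_assoc, sq, ih (by omega), if_pos (by exact h)]

variable {w} {u c : ℕ} (hw : ∀ r, r ≠ 0 → v r < u → w r < c)
include hw

lemma B_le (m k : ℕ) (h : m / 2 ^ u = (m + k) / 2 ^ u) :
    B w m ≤ B w (m + k) ∧ B w (m + k) ≤ B w m + k * c := by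
  induction k with
  | zero => simp
  | succ k ih =>
    have c1 : m / 2 ^ u ≤ (m + k) / 2 ^ u := Nat.div_le_div_right (by omega)
    have c2 : (m + k) / 2 ^ u ≤ (m + (k + 1)) / 2 ^ u := Nat.div_le_div_right (by omega)
    have c3 := ih (by omega)
    have c4 := (div_pred (r := m + k + 1) (u := u) (by omega)).1 (by
      rw [Nat.add_sub_cancel, add_assoc]; omega)
    have c5 := hw _ (by omega) (not_le.1 (mt (v_dvd (by omega)).2 c4))
    rw [← add_assoc, B, add_mul]
    omega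

lemma B_near (m m' : ℕ) (h : m / 2 ^ u = m' / 2 ^ u) : B w m ≤ B w m' + 2 ^ u * c := by
  rcases le_total m m' with c | c <;> obtain ⟨k, rfl⟩ := Nat.exists_eq_add_of_le c
  · exact (B_le hw m k h).1.trans (Nat.le_add_right _ _)
  · refine (B_le hw m' k h.symm).2.trans (Nat.add_le_add_left (Nat.mul_le_mul_right _ ?_) _)
    have := Nat.div_add_mod (m' + k) (2 ^ u)
    have := Nat.div_add_mod m' (2 ^ u)
    have := Nat.mod_lt (m' + k) (Nat.two_pow_pos u)
    rw [h] at *
    omega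

end

end Pool.Agent.H.MP_b1d060_al
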