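import Pool.Agent.H.MP_b1d060_al.A

set_option autoImplicit false

namespace Pool.Agent.H.MP_b1d060_al
open Pool.Agent.H.MP_ac3292_al
open Pool.Agent.H.MP_0ee5c7_al (bit bit_inj div_pred eq_of)

variable {T : Type} [Group T] [Infinite T] (N : Nm T)

noncomputable def q : ℕ ≃ T := (enum N).choose

lemma q_lt {b b' : ℕ} (h : N.ν (q N b) < N.ν (q N b')) : b < b' := (enum N).choose_spec b b' h

open Classical in
noncomputable def g (m : ℕ) : T →₀ ZMod 2 :=
  Finsupp.onFinset ((Finset.range m).image (q N)) (fun p => gr m ((q N).symm p)) fun p h =>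
    Finset.mem_image.2 ⟨(q N).symm p, Finset.mem_range.2 (not_le.1 fun c => h (gr_big c)), by simp⟩

lemma g_apply (m : ℕ) (p : T) : g N m p = gr m ((q N).symm p) := rfl

noncomputable def k (r : ℕ) : ℕ := N.ν (q N (v r))

noncomputable def γ (r j : ℕ) : T := N.anc (q N (v r)) j

lemma γ_nu {r j : ℕ} (h : j ≤ k N r) : N.ν (γ N r j) = j := N.anc_nu _ h

lemma γ_top (r : ℕ) : γ N r (k N r) = q N (v r) := N.anc_top _

lemma γ_dist {r i j : ℕ} (h : i ≤ j) (h' : j ≤ k N r) : N.ν ((γ N r i)⁻¹ * γ N r j) = j - i := by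
  obtain ⟨j, rfl⟩ := Nat.exists_eq_add_of_le h
  rw [Nat.add_sub_cancel_left]
  exact N.anc_dist _ _ _ h'

lemma g_low {r m : ℕ} (h : r ≠ 0) (hm : r = m + 1 ∨ r = m) {p : T} (c : N.ν p + 1 < k N r) :
    g N m p = 0 := by
  have c1 := γ_nu N c.le
  have c2 : (q N).symm p < (q N).symm (γ N r (N.ν p + 1)) := q_lt N (by simp [c1])
  have c3 : (q N).symm (γ N r (N.ν p + 1)) < v r := q_lt N (by simpa [c1, k] using c)
  exact gr_low h hm (by omega)

lemma g_div {m m' : ℕ} (z : T) (h : ∀ p, N.ν z ≤ N.ν p → g N m p = g N m' p) :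
    m / 2 ^ (q N).symm z = m' / 2 ^ (q N).symm z :=
  gr_div fun b c => by
    simpa [g_apply] using h (q N b) (not_lt.1 fun d => c.not_gt (q_lt N (by simpa using d)))

lemma g_top {r m : ℕ} (hm : r = m + 1 ∨ r = m) {p : T} (c : p ≠ q N (v r)) :
    g N m p = g N r p := by
  rcases hm with rfl | rfl
  · exact gr_ne fun d => c (by simp [← d])
  · rfl

noncomputable def xx (r : ℕ) : W T := ⟨g N r, q N (v r)⟩

lemma col_ex (a : ℕ) : ∃ (Δ : ℕ) (κ : ℕ → ℕ), (∀ r, κ r < Δ) ∧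
    ∀ r r', (xx N r)⁻¹ * xx N r' ∈ Bx N a → κ r = κ r' → r = r' :=
  col _ (fun r r' e => by
    simpa using gr_div (m := r) (m' := r') (u := 0) fun b _ => by
      simpa [xx, g_apply] using congrArg (fun x : W T => x.f (q N b)) e) (Bx_fin N a)

noncomputable def Dl (a : ℕ) : ℕ := (col_ex N a).choose

noncomputable def ka (e r : ℕ) : ℕ :=
  (col_ex N (Nat.findGreatest (fun a => Dl N a ≤ e) e)).choose_spec.choose r

lemma ka_spec {a e : ℕ} (h1 : a ≤ e) (h2 : Dl N a ≤ e) : (∀ r, ka N e r < e) ∧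
    ∀ r r', (xx N r)⁻¹ * xx N r' ∈ Bx N a → ka N e r = ka N e r' → r = r' := by
  have c1 := Nat.le_findGreatest (P := fun a => Dl N a ≤ e) h1 h2
  have c2 := Nat.findGreatest_spec (P := fun a => Dl N a ≤ e) h1 h2
  obtain ⟨c3, c4⟩ := (col_ex N (Nat.findGreatest (fun a => Dl N a ≤ e) e)).choose_spec.choose_spec
  exact ⟨fun r => (c3 r).trans_le c2, fun r r' c =>
    c4 r r' ⟨c.1.trans c1, fun p d => c.2 p (by omega)⟩⟩

noncomputable def code (r j : ℕ) : ZMod 2 :=
  if 1 ≤ j ∧ j + 1 < k N r ∧ (j ≤ k N r / 3 ∨ j = k N r / 3 + 2 + ka N (k N r / 3) r) then 1 else 0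

open Classical in
noncomputable def pt (r i m : ℕ) : W T :=
  ⟨g N m + Finsupp.onFinset (N.fin i).toFinset
    (fun p => if N.ν p ≤ i ∧ p = γ N r (N.ν p) then code N r (N.ν p) else 0)
    fun p h => by by_contra c; simp at c; simp [c.not_ge] at h, γ N r i⟩

open Classical in
lemma pt_f (r i m : ℕ) (p : T) : (pt N r i m).f p =
    g N m p + if N.ν p ≤ i ∧ p = γ N r (N.ν p) then code N r (N.ν p) else 0 := rfl

lemma pt_u (r i m : ℕ) : (pt N r i m).u = γ N r i := rfl

lemma pt_out {r i m : ℕ} {p : T} (h : i < N.ν p ∨ k N r ≤ N.ν p + 1 ∨ p ≠ γ N r (N.ν p)) :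
    (pt N r i m).f p = g N m p := by
  rw [pt_f, add_eq_left]
  split_ifs with c
  · refine if_neg fun d => ?_
    rcases h with h | h | h
    exacts [by have := c.1; omega, by have := d.2.1; omega, h c.2]
  · rfl

lemma pt_step {r i : ℕ} (m : ℕ) (h : i < k N r) :
    (pt N r i m)⁻¹ * pt N r (i + 1) m ∈ Bx N 1 ∧ (pt N r (i + 1) m)⁻¹ * pt N r i m ∈ Bx N 1 := by
  have c1 : N.ν ((γ N r i)⁻¹ * γ N r (i + 1)) = 1 := by rw [γ_dist N (by omega) h]; omega
  have c2 : ∀ p, p ≠ γ N r (i + 1) → (pt N r i m).f p = (pt N r (i + 1) m).f p := fun p c => by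
    classical
    rw [pt_f, pt_f]
    refine congrArg _ (if_congr (and_congr_left fun d => ⟨by omega, fun e => ?_⟩) rfl rfl)
    exact Nat.le_of_lt_succ (lt_of_le_of_ne e fun e => c (d.trans (congrArg _ e)))
  refine ⟨(Bx_iff ..).2 ⟨c1.le, fun p d => c2 p ?_⟩,
    (Bx_iff ..).2 ⟨(N.comm _ _).trans_le c1.le, fun p d => (c2 p ?_).symm⟩⟩
  · rintro rfl; exact d.ne' c1
  · rintro rfl; simp [pt_u, N.one] at d

lemma pt_top (m : ℕ) : (pt N (m + 1) (k N (m + 1)) m)⁻¹ *
    pt N (m + 1) (k N (m + 1)) (m + 1) ∈ Bx N 1 := by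
  refine (Bx_iff ..).2 ⟨by simp [pt_u, N.one], fun p d => ?_⟩
  rw [pt_f, pt_f, g_top N (Or.inl rfl)]
  rintro rfl
  simp [pt_u, γ_top, N.one] at d

lemma pt_bot (r m : ℕ) : pt N r 0 m = ⟨g N m, 1⟩ := by
  refine W.ext (Finsupp.ext fun p => ?_) ((N.zero _).1 (γ_nu N (Nat.zero_le _)))
  rw [pt_f, add_eq_left]
  split_ifs with c
  · exact if_neg (by have := c.1; omega)
  · rfl

def Cs (a : ℕ) (x y : W T) : Prop :=
  N.ν (x.u⁻¹ * y.u) ≤ a ∧ ∀ p, a < N.ν (x.u⁻¹ * p) → a < N.ν (y.u⁻¹ * p) → x.f p = y.f p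

omit [Infinite T] in
lemma Cs.symm {a : ℕ} {x y : W T} (h : Cs N a x y) : Cs N a y x :=
  ⟨(N.comm _ _).trans_le h.1, fun p c d => (h.2 p d c).symm⟩

omit [Infinite T] in
lemma vis (u p : T) : N.ν u ≤ N.ν p + N.ν (u⁻¹ * p) ∧ N.ν p ≤ N.ν u + N.ν (u⁻¹ * p) :=
  ⟨N.comm u p ▸ N.le p u, N.le u p⟩

structure St (r i m : ℕ) : Prop where
  r0 : r ≠ 0
  hm : r = m + 1 ∨ r = m
  hi : i ≤ k N r

variable {N} {a r i m r' i' m' : ℕ} (s : St N r i m) (s' : St N r' i' m')
  (h : Cs N a (pt N r i m) (pt N r' i' m'))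
include s s' h

lemma near : i' ≤ i + a := by
  have := N.le (γ N r i) (γ N r' i')
  have := h.1
  rw [γ_nu N s.hi, γ_nu N s'.hi] at *
  simp only [pt_u] at this
  omega

lemma see {p : T} (c : N.ν p + a < i ∧ N.ν p + a < i' ∨ i + a < N.ν p ∧ i' + a < N.ν p) :
    (pt N r i m).f p = (pt N r' i' m').f p := by
  have c1 := vis N (γ N r i) p
  have c2 := vis N (γ N r' i') p
  rw [γ_nu N s.hi] at c1
  rw [γ_nu N s'.hi] at c2
  exact h.2 p (by rw [pt_u]; omega) (by rw [pt_u]; omega)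

lemma code_imp {j : ℕ} (c : j + a < i) (c' : j + a < i') (d' : j + 1 < k N r')
    (e : code N r j = 1) : code N r' j = 1 := by
  have d : j + 1 < k N r := by
    by_contra d
    rw [code, if_neg (by omega)] at e
    simp at e
  have c1 := γ_nu N (r := r) (j := j) (by omega)
  have := see s s' h (p := γ N r j) (by omega)
  rw [pt_f, pt_f, c1, g_low N s.r0 s.hm (by omega), g_low N s'.r0 s'.hm (by omega),
    if_pos ⟨by omega, rfl⟩, e] at this
  split_ifs at this
  · simpa using this.symm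
  · simp at this

lemma outer (z : T) (c : i + a < N.ν z) (c' : i' + a < N.ν z) :
    m / 2 ^ (q N).symm z = m' / 2 ^ (q N).symm z :=
  g_div N z fun p d => by
    rw [← pt_out N (r := r) (i := i) (by omega), ← pt_out N (r := r') (i := i') (by omega)]
    exact see s s' h (by omega)

lemma same1 (c : i + 2 * a + 1 < k N r) (c' : i + 2 * a + 1 < k N r') : r = r' := by
  have n1 := near s s' h
  have c1 := γ_nu N c.le
  have c2 := outer s s' h (γ N r (i + 2 * a + 1)) (by omega) (by omega)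
  have c3 : (q N).symm (γ N r (i + 2 * a + 1)) < v r := q_lt N (by simpa [c1, k] using c)
  have c4 : (q N).symm (γ N r (i + 2 * a + 1)) < v r' := q_lt N (by simpa [c1, k] using c')
  generalize (q N).symm (γ N r (i + 2 * a + 1)) = u at *
  have k1 := Nat.div_add_mod m (2 ^ u)
  have k2 := Nat.div_add_mod m' (2 ^ u)
  have k3 := Nat.mod_lt m (Nat.two_pow_pos u)
  have k4 := Nat.mod_lt m' (Nat.two_pow_pos u)
  rw [c2] at k1
  have := s.hm
  have := s'.hm
  exact eq_of (u := u) (by omega) (by omega) (Nat.lt_succ_self u)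
    ((Nat.modEq_zero_iff_dvd.2 ((v_dvd s.r0).2 c3)).trans
      (Nat.modEq_zero_iff_dvd.2 ((v_dvd s'.r0).2 c4)).symm)

lemma same2 (c : k N r ≤ i + 3 * a + 1) (c1 : 3 * Dl N (8 * a + 10) + 30 * a + 40 ≤ i) : r = r' := by
  have n1 := near s s' h
  have n2 := near s' s h.symm
  have i1 := s.hi
  have i2 := s'.hi
  have one : ∀ r j, code N r j = 1 ↔ 1 ≤ j ∧ j + 1 < k N r ∧
      (j ≤ k N r / 3 ∨ j = k N r / 3 + 2 + ka N (k N r / 3) r) := fun r j => by
    rw [code, ite_eq_left_iff]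
    simp only [zero_ne_one, imp_false, not_not]
  have e1 : k N r / 3 = k N r' / 3 := by
    rcases lt_trichotomy (k N r / 3) (k N r' / 3) with d | d | d
    · have := (one _ _).1 (code_imp s' s h.symm (j := k N r / 3 + 1) (by omega) (by omega)
        (by omega) ((one _ _).2 (by omega)))
      omega
    · exact d
    · have := (one _ _).1 (code_imp s s' h (j := k N r' / 3 + 1) (by omega) (by omega)
        (by omega) ((one _ _).2 (by omega)))
      omega
  obtain ⟨k1, k2⟩ := ka_spec N (a := 8 * a + 10) (e := k N r / 3) (by omega) (by omega)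
  have k3 := k1 r
  have k4 := (one _ _).1 (code_imp s s' h (j := k N r / 3 + 2 + ka N (k N r / 3) r) (by omega)
    (by omega) (by omega) ((one _ _).2 (by omega)))
  rw [← e1] at k4
  refine k2 r r' ?_ (by omega)
  have d1 := γ_dist N s.hi le_rfl
  have d2 := γ_dist N s'.hi le_rfl
  have d3 : N.ν ((γ N r i)⁻¹ * γ N r' i') ≤ a := h.1
  rw [γ_top] at d1 d2
  have d4 := N.tri (q N (v r)) (γ N r i) (q N (v r'))
  have d5 := N.tri (γ N r i) (γ N r' i') (q N (v r'))
  have d6 := N.comm (q N (v r)) (γ N r i)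
  refine (Bx_iff ..).2 ⟨show N.ν ((q N (v r))⁻¹ * q N (v r')) ≤ _ by omega, fun p d => ?_⟩
  change _ < N.ν ((q N (v r))⁻¹ * p) at d
  change g N r p = g N r' p
  by_cases l : N.ν p + 1 < k N r ∧ N.ν p + 1 < k N r'
  · rw [g_low N s.r0 (Or.inr rfl) l.1, g_low N s'.r0 (Or.inr rfl) l.2]
  have t1 := N.tri (q N (v r)) (γ N r i) p
  have t2 := N.tri (γ N r i) (γ N r' i') p
  have t3 := N.tri (q N (v r)) (q N (v r')) p
  have far : ∀ r, 5 < N.ν ((q N (v r))⁻¹ * p) → k N r ≤ N.ν p + 5 →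
      k N r ≤ N.ν p + 1 ∨ p ≠ γ N r (N.ν p) := fun r u1 u2 => by
    refine or_iff_not_imp_left.2 fun u3 u4 => ?_
    have := γ_dist N (r := r) (i := N.ν p) (by omega) le_rfl
    rw [← u4, γ_top, N.comm] at this
    omega
  rw [← g_top N s.hm (by rintro rfl; simp [N.one] at d),
    ← g_top N s'.hm (by rintro rfl; omega),
    ← pt_out N (i := i) (Or.inr (far r (by omega) (by omega))),
    ← pt_out N (i := i') (Or.inr (far r' (by omega) (by omega)))]
  exact h.2 p (by rw [pt_u]; omega) (by rw [pt_u]; omega)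

lemma same (c1 : 3 * Dl N (8 * a + 10) + 31 * a + 40 ≤ i) : r = r' := by
  have n1 := near s s' h
  have n2 := near s' s h.symm
  by_cases c : i + 2 * a + 1 < k N r
  · by_cases c' : i + 2 * a + 1 < k N r'
    · exact same1 s s' h c c'
    · exact (same2 s' s h.symm (by omega) (by omega)).symm
  · exact same2 s s' h (by omega) (by omega)

end Pool.Agent.H.MP_b1d060_al
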