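import Pool.Agent.H.MP_b1d060_al.B

set_option autoImplicit false

namespace Pool.Agent.H.MP_b1d060_al
open Pool.Agent.H.MP_ac3292_al

variable {T : Type} [Group T] [Infinite T] (N : Nm T)

noncomputable def w (r : ℕ) : ℕ := 2 * k N r + 1

noncomputable def pj (m j : ℕ) : W T :=
  if j ≤ k N (m + 1) then pt N (m + 1) j m else pt N (m + 1) (w N (m + 1) - j) (m + 1)

noncomputable def P (n : ℕ) : W T := pj N (sq (w N) n).1 (sq (w N) n).2

lemma P_step (n : ℕ) : (P N n)⁻¹ * P N (n + 1) ∈ Bx N 1 := by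
  have c := (sq_inv (w N) n).2
  rw [P, P, sq]
  generalize (sq (w N) n).1 = m at *
  generalize (sq (w N) n).2 = j at *
  have e0 : w N (m + 1) = 2 * k N (m + 1) + 1 := rfl
  split_ifs with d <;> dsimp only [pj]
  · split_ifs with k l
    · exact (pt_step N _ l).1
    · obtain rfl : j = Pool.Agent.H.MP_b1d060_al.k N (m + 1) := by omega
      convert pt_top N m using 3
      omega
    · omega
    · convert (pt_step N (i := w N (m + 1) - (j + 1)) (r := m + 1) (m + 1) (by omega)).2 using 4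
      omega
  · rw [if_neg (by omega), if_pos (by omega), show w N (m + 1) - j = 0 by omega, pt_bot, pt_bot]
    simp [Bx, N.one]

lemma P_desc (n : ℕ) : ∃ r i m, P N n = pt N r i m ∧ St N r i m ∧
    ((r = m + 1 ∧ n = B (w N) m + i) ∨ (r = m ∧ n + i + 1 = B (w N) m)) := by
  obtain ⟨c1, c2⟩ := sq_inv (w N) n
  rw [P, pj]
  split_ifs with c
  · exact ⟨_, _, _, rfl, ⟨by omega, Or.inl rfl, c⟩, Or.inl ⟨rfl, c1⟩⟩
  · exact ⟨_, _, _, rfl, ⟨by omega, Or.inr rfl, by rw [w]; omega⟩,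
      Or.inr ⟨rfl, by rw [B]; omega⟩⟩

lemma P_unif (a : ℕ) : ∃ M : ℕ, ∀ n n', Cs N a (P N n) (P N n') → n ≤ n' + M := by
  obtain ⟨J, hJ⟩ : ∃ J, J = 3 * Dl N (8 * a + 10) + 31 * a + 40 := ⟨_, rfl⟩
  obtain ⟨z, hz⟩ := N.big (J + 2 * a + 1)
  refine ⟨2 ^ (q N).symm z * (2 * N.ν z + 2) + 2 * J + 3 * a + 1, fun n n' h => ?_⟩
  obtain ⟨r, i, m, c1, s, c4⟩ := P_desc N n
  obtain ⟨r', i', m', d1, s', d4⟩ := P_desc N n'
  rw [c1, d1] at h
  have n1 := near s s' h
  have n2 := near s' s h.symm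
  by_cases c : J ≤ i
  · obtain rfl := same s s' h (hJ ▸ c)
    have i1 := s.hi
    have i2 := s'.hi
    rcases c4 with ⟨rfl, rfl⟩ | ⟨rfl, c4⟩ <;> rcases d4 with ⟨d4, d5⟩ | ⟨d4, d5⟩
    · obtain rfl : m = m' := by omega
      omega
    · subst d4
      rw [B, w] at d5
      omega
    · subst d4
      rw [B, w] at c4
      by_contra l
      have t := γ_nu N (r := m' + 1) le_rfl
      have := h.2 (γ N (m' + 1) (k N (m' + 1))) (by rw [pt_u, γ_dist N i1 le_rfl]; omega)
        (by rw [pt_u, γ_dist N i2 le_rfl]; omega)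
      rw [pt_out N (by omega), pt_out N (by omega), γ_top, g_apply, g_apply,
        Equiv.symm_apply_apply] at this
      exact gr_v m' this.symm
    · subst d4
      omega
  · have k1 := B_near (w := w N) (u := (q N).symm z) (c := 2 * N.ν z + 2) (fun r _ d => by
      have : ¬ N.ν z < k N r := fun e => d.not_gt (q_lt N (by simpa [k] using e))
      unfold w
      omega) m m' (outer s s' h z (by omega) (by omega))
    omega

lemma cover (c : T →₀ ZMod 2) : ∃ n, P N n = ⟨c, 1⟩ := by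
  obtain ⟨K, hK⟩ := bdd c.support.finite_toSet (q N).symm
  obtain ⟨m, hm⟩ := gr_surj (K + 1) (fun b => c (q N b)) fun b d =>
    Finsupp.notMem_support_iff.1 fun l => by have := hK _ l; simp at this; omega
  refine ⟨B (w N) m, ?_⟩
  have := sq_B (w N) m 0 (Nat.zero_le _)
  rw [add_zero] at this
  rw [P, this, pj, if_pos (Nat.zero_le _), pt_bot]
  exact W.ext (Finsupp.ext fun p => by simp [g_apply, hm]) rfl

lemma P_zero : P N 0 = 1 := by
  rw [P, sq, pj, if_pos (Nat.zero_le _), pt_bot]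
  exact W.ext (Finsupp.ext fun p => by simp [g_apply, gr_big]) rfl

lemma mark (n j : ℕ) (h : j = 1 ∨ j = 2) :
    N.ν (P N n).u ≤ 5 ∨ ∃ p, N.ν p = j ∧ (P N n).f p = 1 := by
  obtain ⟨r, i, m, c1, s, -⟩ := P_desc N n
  have i1 := s.hi
  rw [c1, pt_u, γ_nu N i1]
  refine or_iff_not_imp_left.2 fun c => ?_
  have t := γ_nu N (r := r) (j := j) (by omega)
  refine ⟨_, t, ?_⟩
  rw [pt_f, t, g_low N s.r0 s.hm (by omega), if_pos ⟨by omega, rfl⟩, code, if_pos (by omega),
    zero_add]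

theorem line : ∃ l : ℤ → W T, (∀ z, (l z)⁻¹ * l (z + 1) ∈ Bx N 1) ∧
    (∀ a, ∃ M : ℕ, ∀ z z', (l z)⁻¹ * l z' ∈ Bx N a → (z - z').natAbs ≤ M) ∧
    (∀ c, ∃ z, l z = ⟨c, 1⟩) ∧ ∀ z, N.ν (l z).u ≤ 5 ∨ ∃ p, N.ν p = 1 ∧ (l z).f p = 1 := by
  classical
  obtain ⟨c, c0, hc⟩ := N.line
  have c1 : ∀ z, N.ν (c z) = z.natAbs := fun z => by simpa [c0] using hc 0 z
  let l : ℤ → W T := fun z => if 0 ≤ z then P N z.toNat else ⟨Finsupp.single (c (-1)) 1, c z⟩
  have l1 : ∀ n : ℕ, l n = P N n := fun n => by simp [l]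
  have l2 : ∀ z < 0, l z = ⟨Finsupp.single (c (-1)) 1, c z⟩ := fun z h => if_neg h.not_ge
  refine ⟨l, fun z => ?_, fun a => ?_, fun c => ?_, fun z => ?_⟩
  · rcases lt_trichotomy z (-1) with h | rfl | h
    · rw [l2 z (by omega), l2 _ (by omega), Bx_iff]
      exact ⟨by rw [hc]; omega, fun _ _ => rfl⟩
    · rw [l2 _ (by omega), show (-1 + 1 : ℤ) = (0 : ℕ) from rfl, l1, P_zero, Bx_iff]
      refine ⟨by simp [N.inv, c1], fun p d => Finsupp.single_eq_of_ne ?_⟩
      rintro rfl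
      simp [N.one] at d
    · obtain ⟨n, rfl⟩ := Int.eq_ofNat_of_zero_le (show 0 ≤ z by omega)
      rw [l1, ← Nat.cast_succ, l1]
      exact P_step N n
  · obtain ⟨M, hM⟩ := P_unif N a
    obtain ⟨M', hM'⟩ := P_unif N (4 * a + 6)
    suffices ∀ z z', Cs N a (l z) (l z') → (z - z').natAbs ≤ M + M' + 3 * a + 5 from
      ⟨_, fun z z' h => this z z' ⟨((Bx_iff ..).1 h).1, fun p d _ => ((Bx_iff ..).1 h).2 p d⟩⟩
    intro z z' h
    wlog d : z ≤ z' generalizing z z'
    · have := this z' z h.symm (by omega)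
      omega
    rcases lt_or_ge z' 0 with e' | e'
    · have := h.1
      rw [l2 z (by omega), l2 z' e', hc] at this
      omega
    obtain ⟨n', rfl⟩ := Int.eq_ofNat_of_zero_le e'
    rcases lt_or_ge z 0 with e | e
    · rw [l2 z e, l1] at h
      have h1 : N.ν ((c z)⁻¹ * (P N n').u) ≤ a := h.1
      have h2 := vis N (c z) (P N n').u
      rw [c1] at h2
      have h3 : z.natAbs ≤ 2 * a + 5 := by
        rcases mark N n' 2 (Or.inr rfl) with k | ⟨p, k1, k2⟩
        · omega
        by_contra k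
        have t1 := vis N (c z) p
        have t2 := vis N (P N n').u p
        rw [c1] at t1
        have := h.2 p (by dsimp only; omega) (by omega)
        rw [k2, Finsupp.single_eq_of_ne (by rintro rfl; simp [c1] at k1)] at this
        exact zero_ne_one this
      have := hM' n' 0 (by
        rw [P_zero]
        refine ⟨by rw [one_u, mul_one, N.inv]; omega, fun p _ k => ?_⟩
        rw [one_u, inv_one, one_mul] at k
        have t1 := vis N (c z) p
        have t2 := vis N (P N n').u p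
        rw [c1] at t1
        rw [← h.2 p (by dsimp only; omega) (by omega)]
        exact Finsupp.single_eq_of_ne (by rintro rfl; simp [c1] at k))
      omega
    · obtain ⟨n, rfl⟩ := Int.eq_ofNat_of_zero_le e
      rw [l1, l1] at h
      have := hM _ _ h.symm
      omega
  · obtain ⟨n, h⟩ := cover N c
    exact ⟨n, (l1 n).trans h⟩
  · rcases lt_or_ge z 0 with e | e
    · rw [l2 z e]
      exact Or.inr ⟨c (-1), by simp [c1], by simp⟩
    · obtain ⟨n, rfl⟩ := Int.eq_ofNat_of_zero_le e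
      rw [l1]
      exact mark N n 1 (Or.inl rfl)

end Pool.Agent.H.MP_b1d060_al
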