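import Pool.Agent.H.MP_b1d060_al.C

set_option autoImplicit false

namespace Pool.Agent.H.MP_b1d060_al
open Pool.Agent.H.MP_ac3292_al Pool.Agent.H.MP_1d7d98_al

abbrev GG : Type := W T4 × Multiplicative ℤ

open Classical in
noncomputable def SG (S : Finset T4) : Finset GG :=
  insert (1, Multiplicative.ofAdd 1) ((SW S).image (MonoidHom.inl _ _))

lemma SG_gen (S : Finset T4) (hS : Subgroup.closure (S : Set T4) = ⊤) :
    Subgroup.closure (SG S : Set GG) = ⊤ := by
  classical
  have h1 : (Subgroup.closure (SW S : Set (W T4))).map (MonoidHom.inl _ (Multiplicative ℤ)) ≤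
      Subgroup.closure (SG S : Set GG) := by
    rw [MonoidHom.map_closure]
    exact Subgroup.closure_mono (by
      rintro _ ⟨x, c, rfl⟩
      exact Finset.mem_insert_of_mem (Finset.mem_image_of_mem _ c))
  have h2 : ((1, Multiplicative.ofAdd 1) : GG) ∈ Subgroup.closure (SG S : Set GG) :=
    Subgroup.subset_closure (Finset.mem_insert_self _ _)
  refine eq_top_iff.2 fun g _ => ?_
  convert mul_mem (h1 ⟨g.1, SW_gen S hS ▸ trivial, rfl⟩) (zpow_mem h2 g.2.toAdd) using 1
  ext1
  · simp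
  · simp [← ofAdd_zsmul]

lemma SG_st {S : Finset T4} {g h : GG} (c : MP_1d7d98_al.St (SG S : Set GG) g h) (h1 : g.1.u ≠ 1)
    (h2 : h.1.u ≠ 1) : g.1.f 1 = h.1.f 1 := by
  classical
  wlog d : g⁻¹ * h ∈ SG S generalizing g h
  · exact (this c.symm h2 h1 (c.resolve_left d)).symm
  simp only [SG, Finset.mem_insert, Finset.mem_image] at d
  rcases d with d | ⟨x, d, e⟩
  · rw [inv_mul_eq_one.1 (congrArg Prod.fst d)]
  · exact SW_st (S := S) (Or.inl ((show x = g.1⁻¹ * h.1 from congrArg Prod.fst e) ▸ d)) h1 h2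

lemma lip {G : Type} [Group G] (M : Nm G) (φ : ℤ → G) (R : ℕ)
    (h : ∀ z, M.ν ((φ z)⁻¹ * φ (z + 1)) ≤ R) (z z' : ℤ) :
    M.ν ((φ z)⁻¹ * φ z') ≤ R * (z - z').natAbs := by
  wlog c : z ≤ z' generalizing z z'
  · rw [M.comm, ← Int.natAbs_neg, neg_sub]; exact this z' z (by omega)
  obtain ⟨n, rfl⟩ := Int.le.dest c
  rw [show (z - (z + n)).natAbs = n by omega]
  clear c
  induction n with
  | zero => simp [M.one]
  | succ n ih =>
    have := M.tri (φ z) (φ (z + n)) (φ (z + n + 1))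
    have := h (z + n)
    rw [Nat.cast_succ, ← add_assoc, mul_add]
    omega

lemma noZ2 (K : Subgroup GG) (e : K ≃* Multiplicative (Fin 2 → ℤ)) : False := by
  let ψ : Multiplicative (Fin 2 → ℤ) →* Multiplicative ℤ :=
    (MonoidHom.snd _ _).comp (K.subtype.comp e.symm.toMonoidHom)
  have h : ∀ x, ψ x = 1 → x = 1 := fun x c => by
    obtain ⟨n, h1, h2⟩ := isOfFinOrder_iff_pow_eq_one.1 (W_tor T4_tor (e.symm x).1.1)
    have : e.symm x ^ n = 1 := Subtype.ext (Prod.ext h2 (by
      change ψ x ^ n = 1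
      rw [c, one_pow]))
    rw [← map_pow, EmbeddingLike.map_eq_one_iff] at this
    exact (pow_eq_one_iff_left h1.ne').1 this
  let x : Multiplicative (Fin 2 → ℤ) := .ofAdd ![1, 0]
  let y : Multiplicative (Fin 2 → ℤ) := .ofAdd ![0, 1]
  have h1 := h (x ^ (ψ y).toAdd * (y ^ (ψ x).toAdd)⁻¹) (by
    apply Multiplicative.toAdd.injective
    simp [mul_comm])
  have h2 := congrFun (congrArg Multiplicative.toAdd h1) 1
  have h3 := congrFun (congrArg Multiplicative.toAdd (h x (by simpa [x, y] using h2))) 0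
  simp [x] at h3

end Pool.Agent.H.MP_b1d060_al
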